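import Pool.Agent.Helper6_Eng.Stmts

/-!
# Squad ENG: common part of LODD and LTWO
-/

set_option autoImplicit false

namespace Pool.Agent.Eng.H26

open Pool.Agent.Eng

section
variable {F : Type} [Field F] {n : ℕ}

/-- The action of `SL(n,F)` on `F^n`. -/
abbrev TT (n : ℕ) (F : Type) [Field F] :
    Matrix.SpecialLinearGroup (Fin n) F ≃* SpecialLinearGroup F (Fin n → F) :=
  Matrix.SpecialLinearGroup.toLin'_equiv

lemma law_transfer {G Q : Type} [Group G] [Group Q] (e : G ≃* Q) (d : ℕ) (h : Law Q d) :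
    Law G d := by
  obtain ⟨r, hr⟩ := h
  have key : ∀ (x y : G) (m : ℕ), e ((eng y)^[m] x) = (eng (e y))^[m] (e x) := by
    intro x y m
    induction m with
    | zero => rfl
    | succ m ih =>
      rw [Function.iterate_succ_apply', Function.iterate_succ_apply', ← ih]
      simp [eng]
  refine ⟨r, fun x y => ?_⟩
  apply e.injective
  rw [key, key]
  exact hr _ _

lemma scal_central (g : Matrix.SpecialLinearGroup (Fin n) F) (a : F)
    (h : ∀ v : Fin n → F, (TT n F g) v = a • v) :
    (QuotientGroup.mk g : PSL n F) = 1 := by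
  have : g ∈ Subgroup.center (Matrix.SpecialLinearGroup (Fin n) F) := by
    rw [Subgroup.mem_center_iff]
    intro k
    apply (TT n F).injective
    rw [map_mul, map_mul]
    apply SpecialLinearGroup.ext
    intro v
    change (TT n F k) ((TT n F g) v) = (TT n F g) ((TT n F k) v)
    rw [h, h]
    exact ((TT n F k : (Fin n → F) ≃ₗ[F] (Fin n → F))).map_smul a v
  exact (QuotientGroup.eq_one_iff _).2 this

lemma scal_central_pow (g : Matrix.SpecialLinearGroup (Fin n) F) (d : ℕ) (a : F)
    (h : ∀ v : Fin n → F, ((TT n F g) ^ d : SpecialLinearGroup F (Fin n → F)) v = a • v) :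
    (QuotientGroup.mk g : PSL n F) ^ d = 1 := by
  have h1 : (QuotientGroup.mk (g ^ d) : PSL n F) = 1 := by
    apply scal_central (g ^ d) a
    intro v
    rw [map_pow]
    exact h v
  exact h1

lemma coprime_card [Finite F] (p c : ℕ) (hp : p.Prime) (hpF : (p : F) ≠ 0) :
    Nat.Coprime (p ^ c) (Nat.card F) := by
  classical
  have : Fintype F := Fintype.ofFinite F
  apply Nat.Coprime.pow_left
  rw [Nat.Prime.coprime_iff_not_dvd hp]
  intro hdiv
  obtain ⟨r, hr⟩ := CharP.exists F
  obtain ⟨m, hrp, hm⟩ := FiniteField.card F r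
  rw [Nat.card_eq_fintype_card, hm] at hdiv
  have h1 := (Nat.prime_dvd_prime_iff_eq hp hrp).1 (hp.dvd_of_dvd_pow hdiv)
  apply hpF
  rw [h1]
  exact CharP.cast_eq_zero F r

/-- The reducible case. -/
theorem red (ltr : LtrStmt) (lss : LssStmt) (lre : LreStmt) [Finite F]
    (g : Matrix.SpecialLinearGroup (Fin n) F) (e : ℕ) (he : g ^ e = 1) (heF : (e : F) ≠ 0)
    (hcop : Nat.Coprime e (Nat.card F)) (W : Submodule F (Fin n → F))
    (hinv : ∀ x ∈ W, (TT n F g) x ∈ W) (hb : W ≠ ⊥) (ht : W ≠ ⊤) (d : ℕ)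
    (hd : Law (PSL n F) d) :
    (QuotientGroup.mk g : PSL n F) ^ (2 * d) = 1 ∧
      (Even d → (QuotientGroup.mk g : PSL n F) ^ d = 1) := by
  classical
  set T : SpecialLinearGroup F (Fin n → F) := TT n F g with hT
  have hTe : T ^ e = 1 := by rw [hT, ← map_pow, he, map_one]
  have hpow : ((T : (Fin n → F) ≃ₗ[F] (Fin n → F)) : (Fin n → F) →ₗ[F] (Fin n → F)) ^ e =
      (1 : F) • (1 : (Fin n → F) →ₗ[F] (Fin n → F)) := by
    rw [one_smul]
    have h2 : ∀ m : ℕ, ((T : (Fin n → F) ≃ₗ[F] (Fin n → F)) : (Fin n → F) →ₗ[F] (Fin n → F)) ^ m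
        = (((T ^ m : SpecialLinearGroup F (Fin n → F)) : (Fin n → F) ≃ₗ[F] (Fin n → F)) :
          (Fin n → F) →ₗ[F] (Fin n → F)) := by
      intro m
      induction m with
      | zero => rfl
      | succ m ih => rw [pow_succ, ih, pow_succ]; rfl
    rw [h2, hTe]
    rfl
  obtain ⟨W', hW', hc⟩ := lss F (Fin n → F)
    ((T : (Fin n → F) ≃ₗ[F] (Fin n → F)) : (Fin n → F) →ₗ[F] (Fin n → F)) e 1 heF one_ne_zero
    hpow W (fun x hx => hinv x hx)
  have hb' : W' ≠ ⊥ := by
    intro h
    apply ht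
    have := hc.sup_eq_top
    rwa [h, sup_bot_eq] at this
  obtain ⟨iso⟩ := ltr F (Fin n → F) n (by simp)
  have hl := lre F (Fin n → F) T W W' e 1 hb hb' hc hinv (fun x hx => hW' x hx) hcop
    (fun v => by rw [hTe, one_smul]; rfl) d (law_transfer iso d hd)
  refine ⟨?_, fun hev => ?_⟩
  · obtain ⟨a, ha⟩ := hl.1
    exact scal_central_pow g (2 * d) a ha
  · obtain ⟨a, ha⟩ := hl.2 hev
    exact scal_central_pow g d a ha

/-- The irreducible case. -/
theorem irr (lir : LirStmt) [Finite F] (hn : 1 ≤ n)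
    (g : Matrix.SpecialLinearGroup (Fin n) F)
    (hirr : ∀ W : Submodule F (Fin n → F), (∀ x ∈ W, (TT n F g) x ∈ W) → W = ⊥ ∨ W = ⊤) :
    ∃ (K : Type) (_ : Field K) (_ : Algebra F K) (_ : FiniteDimensional F K) (lam : K),
      Algebra.adjoin F {lam} = ⊤ ∧ Module.finrank F K = n ∧ Algebra.norm F lam = 1 ∧
      orderOf lam = orderOf g ∧
      ∀ d : ℕ, (∃ a : F, lam ^ d = algebraMap F K a) →
        (QuotientGroup.mk g : PSL n F) ^ d = 1 := by
  classical
  have : Nonempty (Fin n) := ⟨⟨0, hn⟩⟩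
  set T : SpecialLinearGroup F (Fin n → F) := TT n F g with hT
  obtain ⟨K, iK, iA, iD, lam, e, had, he⟩ := lir F (Fin n → F)
    ((T : (Fin n → F) ≃ₗ[F] (Fin n → F)) : (Fin n → F) →ₗ[F] (Fin n → F))
    (fun W hW => hirr W hW)
  have hepow : ∀ (m : ℕ) (v : Fin n → F),
      e ((T ^ m : SpecialLinearGroup F (Fin n → F)) v) = lam ^ m * e v := by
    intro m
    induction m with
    | zero => intro v; rw [pow_zero, pow_zero, one_mul]; rfl
    | succ m ih =>
      intro v
      rw [pow_succ]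
      change e ((T ^ m : SpecialLinearGroup F (Fin n → F)) (T v)) = _
      rw [ih]
      have := he v
      change e (T v) = lam * e v at this
      rw [this, pow_succ, mul_assoc]
  refine ⟨K, iK, iA, iD, lam, had, ?_, ?_, ?_, ?_⟩
  · rw [← LinearEquiv.finrank_eq e]; simp
  · rw [Algebra.norm_apply]
    have hconj : Algebra.lmul F K lam = (e : (Fin n → F) →ₗ[F] K) ∘ₗ
        (((T : (Fin n → F) ≃ₗ[F] (Fin n → F)) : (Fin n → F) →ₗ[F] (Fin n → F)) ∘ₗ
          (e.symm : K →ₗ[F] (Fin n → F))) := by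
      ext x
      have := he (e.symm x)
      simp only [LinearMap.coe_comp, Function.comp_apply, LinearEquiv.coe_coe] at this ⊢
      rw [this]
      simp
    rw [hconj]
    rw [LinearMap.det_conj]
    have := T.2
    rw [← LinearEquiv.coe_det, this]
    rfl
  · apply Nat.dvd_antisymm
    · apply orderOf_dvd_of_pow_eq_one
      have h1 := hepow (orderOf g) (e.symm 1)
      rw [hT, ← map_pow, pow_orderOf_eq_one, map_one] at h1
      change e (e.symm 1) = _ at h1
      rw [LinearEquiv.apply_symm_apply, mul_one] at h1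
      exact h1.symm
    · apply orderOf_dvd_of_pow_eq_one
      apply (TT n F).injective
      rw [map_pow, map_one]
      apply SpecialLinearGroup.ext
      intro v
      apply e.injective
      rw [← hT, hepow, pow_orderOf_eq_one, one_mul]
      rfl
  · rintro d ⟨a, ha⟩
    apply scal_central_pow g d a
    intro v
    apply e.injective
    rw [← hT, hepow, ha, map_smul, Algebra.smul_def]

end

end Pool.Agent.Eng.H26
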