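import Pool.Agent.Helper26_Eng.Lcom

/-!
# Squad ENG: LODD and LTWO
-/

set_option autoImplicit false

namespace Pool.Agent.Eng.H26

open Pool.Agent.Eng

/-- LODD. -/
theorem lodd (lift : LiftStmt) (ltr : LtrStmt) (lss : LssStmt) (lre : LreStmt) (lir : LirStmt)
    (lri : LriStmt) (lie : LieStmt) (esp : EspStmt) (ssl : SpSlStmt) : LoddStmt := by
  classical
  intro F _ _ n p k hn hp hp2 hpF hy
  rcases Nat.eq_zero_or_pos k with hk | hk
  · subst hk
    intro d _ _
    simp
  obtain ⟨g, c, hg, hgk⟩ := lift (Matrix.SpecialLinearGroup (Fin n) F)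
    (Subgroup.center (Matrix.SpecialLinearGroup (Fin n) F)) p k hp hy
  have hkc : k ≤ c := by
    have h1 : orderOf (QuotientGroup.mk g : PSL n F) ∣ orderOf g :=
      orderOf_map_dvd (QuotientGroup.mk' (Subgroup.center (Matrix.SpecialLinearGroup (Fin n) F))) g
    have h2 : p ^ k ∣ p ^ c := by
      rw [← hg, ← hgk]
      exact h1
    exact (Nat.pow_dvd_pow_iff_le_right hp.one_lt).1 h2
  have hcopp : Nat.Coprime (p ^ k) 2 := by
    apply Nat.Coprime.pow_left
    exact (Nat.coprime_primes hp Nat.prime_two).2 hp2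
  by_cases hirr : ∀ W : Submodule F (Fin n → F), (∀ x ∈ W, (TT n F g) x ∈ W) → W = ⊥ ∨ W = ⊤
  · obtain ⟨K, iK, iA, iD, lam, had, hfr, hnorm, hord, hsc⟩ := irr lir (by omega) g hirr
    have hsc' : ∀ d : ℕ, (∃ a : F, lam ^ d = algebraMap F K a) → p ^ k ∣ d := by
      intro d hd
      rw [← hgk]
      exact orderOf_dvd_of_pow_eq_one (hsc d hd)
    rcases Nat.even_or_odd' n with ⟨m, hm | hm⟩
    · obtain ⟨h1, h2⟩ := lie F K m p c lam (by omega) (by rw [hfr, hm]) had hp hp2
        (by rw [hord, hg])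
      have h3 : PD (PSp m F) (p ^ c) :=
        esp F p c m hp hp2 (by omega) (by omega) (Or.inr h1) h2
      have h4 : PD (PSL n F) (p ^ c) := ssl F m n (p ^ c) (by omega) (by omega) h3
      intro d hd hl
      exact (Nat.pow_dvd_pow p hkc).trans (h4 d hd hl)
    · subst hm
      exact lri F K m p k lam (by omega) hfr had hnorm hp hp2 hsc'
  · push Not at hirr
    obtain ⟨W, hinv, hb, ht⟩ := hirr
    intro d _ hl
    have h1 := (red ltr lss lre g (p ^ c) (by rw [← hg]; exact pow_orderOf_eq_one g)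
      (by push_cast; exact pow_ne_zero _ hpF) (coprime_card p c hp hpF) W hinv hb ht d hl).1
    have h2 : p ^ k ∣ 2 * d := by
      rw [← hgk]
      exact orderOf_dvd_of_pow_eq_one h1
    exact hcopp.dvd_of_dvd_mul_left h2

/-- LTWO. -/
theorem ltwo (lift : LiftStmt) (ltr : LtrStmt) (lss : LssStmt) (lre : LreStmt) (lir : LirStmt)
    (lev : LevStmt) (ltn : LtnStmt) (ltm : LtmStmt) : LtwoStmt := by
  classical
  intro F _ _ n k hn h2F hy
  rcases Nat.eq_zero_or_pos k with hk | hk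
  · subst hk
    intro d _ _
    simp
  obtain ⟨g, c, hg, hgk⟩ := lift (Matrix.SpecialLinearGroup (Fin n) F)
    (Subgroup.center (Matrix.SpecialLinearGroup (Fin n) F)) 2 k Nat.prime_two hy
  by_cases hirr : ∀ W : Submodule F (Fin n → F), (∀ x ∈ W, (TT n F g) x ∈ W) → W = ⊥ ∨ W = ⊤
  · obtain ⟨K, iK, iA, iD, lam, had, hfr, hnorm, hord, hsc⟩ := irr lir (by omega) g hirr
    have hsc' : ∀ d : ℕ, 0 < d → (∃ a : F, lam ^ d = algebraMap F K a) → 2 ^ k ∣ d := by
      intro d _ hd
      rw [← hgk]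
      exact orderOf_dvd_of_pow_eq_one (hsc d hd)
    obtain ⟨m, hm, hm2, hdiv⟩ := ltn F K n c k lam h2F hn hfr had hnorm (by rw [hord, hg]) hsc'
    subst hm
    exact ltm F m (2 ^ k) h2F hm2 hdiv
  · push Not at hirr
    obtain ⟨W, hinv, hb, ht⟩ := hirr
    intro d hd hl
    have hev : Even d := even_iff_two_dvd.2 (lev F n h2F hn d hd hl)
    have h2F' : ((2 : ℕ) : F) ≠ 0 := by exact_mod_cast h2F
    have h1 := (red ltr lss lre g (2 ^ c) (by rw [← hg]; exact pow_orderOf_eq_one g)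
      (by push_cast; exact pow_ne_zero _ h2F) (coprime_card 2 c Nat.prime_two h2F') W hinv hb ht
      d hl).2 hev
    rw [← hgk]
    exact orderOf_dvd_of_pow_eq_one h1

end Pool.Agent.Eng.H26
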