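import Pool.Agent.Helper6_Eng.Stmts

/-!
# Squad ENG: LSS and LIR
-/

set_option autoImplicit false

namespace Pool.Agent.Eng.H26

open Pool.Agent.Eng Polynomial

/-- LSS. -/
theorem lss : LssStmt := by
  intro F V _ _ _ _ g e c he hc hg W hW
  have hsq : Squarefree (X ^ e - C c : F[X]) :=
    (Polynomial.separable_X_pow_sub_C c he hc).squarefree
  have hz : Polynomial.aeval (R := F) (A := Module.End F V) g (X ^ e - C c) = 0 := by
    rw [map_sub, map_pow, aeval_X, aeval_C, Algebra.algebraMap_eq_smul_one, sub_eq_zero]
    exact hg
  have hss : Module.End.IsSemisimple (g : Module.End F V) :=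
    Module.End.isSemisimple_of_squarefree_aeval_eq_zero hsq hz
  rw [Module.End.isSemisimple_iff] at hss
  obtain ⟨q, hq, hc⟩ := hss W (by
    rw [Module.End.mem_invtSubmodule]
    intro x hx
    exact hW x hx)
  refine ⟨q, ?_, hc⟩
  rw [Module.End.mem_invtSubmodule] at hq
  intro x hx
  exact hq hx

/-- LIR. -/
theorem lir : LirStmt := by
  classical
  intro F V _ _ _ _ _ _ g hirr
  have key : ∀ q : F[X], Polynomial.aeval (A := Module.End F V) g q = 0 ∨
      Function.Injective (Polynomial.aeval (A := Module.End F V) g q) := by
    intro q
    have hcomm : ∀ x, g (Polynomial.aeval (A := Module.End F V) g q x) =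
        Polynomial.aeval (A := Module.End F V) g q (g x) := by
      intro x
      have h1 : Commute (g : Module.End F V) (Polynomial.aeval (A := Module.End F V) g q) := by
        have := (Polynomial.aeval_X (R := F) (g : Module.End F V))
        have h2 := (Polynomial.commute_X (q)).map (Polynomial.aeval (A := Module.End F V) g)
        rw [Polynomial.aeval_X] at h2
        exact h2
      exact LinearMap.congr_fun h1 x
    rcases hirr (LinearMap.ker (Polynomial.aeval (A := Module.End F V) g q)) (by
      intro x hx
      rw [LinearMap.mem_ker] at hx ⊢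
      rw [← hcomm, hx, map_zero]) with h | h
    · right
      exact LinearMap.ker_eq_bot.1 h
    · left
      exact LinearMap.ker_eq_top.1 h
  have hint : IsIntegral F (g : Module.End F V) := Algebra.IsIntegral.isIntegral _
  have hirr' : Irreducible (minpoly F (g : Module.End F V)) := by
    refine ⟨?_, ?_⟩
    · intro hu
      exact minpoly.not_isUnit F (g : Module.End F V) hu
    · intro a b hab
      have hne := minpoly.ne_zero hint
      have h0 : Polynomial.aeval (A := Module.End F V) g a *
          Polynomial.aeval (A := Module.End F V) g b = 0 := by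
        rw [← map_mul, ← hab, minpoly.aeval]
      rcases key a with ha | ha
      · right
        have hd : minpoly F (g : Module.End F V) ∣ a := minpoly.dvd F _ ha
        have ha0 : a ≠ 0 := by
          rintro rfl
          rw [zero_mul] at hab
          exact hne hab
        have hb0 : b ≠ 0 := by
          rintro rfl
          rw [mul_zero] at hab
          exact hne hab
        have h1 := Polynomial.degree_le_of_dvd hd ha0
        have h2 : (a * b).natDegree ≤ a.natDegree := by
          rw [← hab]
          exact Polynomial.natDegree_le_natDegree h1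
        rw [Polynomial.natDegree_mul ha0 hb0] at h2
        exact Polynomial.isUnit_iff_degree_eq_zero.2 (by
          rw [Polynomial.degree_eq_natDegree hb0]
          have : b.natDegree = 0 := by omega
          rw [this]; rfl)
      · left
        have hb : Polynomial.aeval (A := Module.End F V) g b = 0 := by
          ext x
          apply ha
          rw [LinearMap.zero_apply, map_zero]
          exact LinearMap.congr_fun h0 x
        have hd : minpoly F (g : Module.End F V) ∣ b := minpoly.dvd F _ hb
        have ha0 : a ≠ 0 := by
          rintro rfl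
          rw [zero_mul] at hab
          exact hne hab
        have hb0 : b ≠ 0 := by
          rintro rfl
          rw [mul_zero] at hab
          exact hne hab
        have h1 := Polynomial.degree_le_of_dvd hd hb0
        have h2 : (a * b).natDegree ≤ b.natDegree := by
          rw [← hab]
          exact Polynomial.natDegree_le_natDegree h1
        rw [Polynomial.natDegree_mul ha0 hb0] at h2
        exact Polynomial.isUnit_iff_degree_eq_zero.2 (by
          rw [Polynomial.degree_eq_natDegree ha0]
          have : a.natDegree = 0 := by omega
          rw [this]; rfl)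
  set p := minpoly F (g : Module.End F V) with hp
  have : Fact (Irreducible p) := ⟨hirr'⟩
  let ψ : AdjoinRoot p →ₐ[F] Module.End F V :=
    Ideal.Quotient.liftₐ (Ideal.span {p}) (Polynomial.aeval (A := Module.End F V) g) (by
      intro a ha
      obtain ⟨b, rfl⟩ := Ideal.mem_span_singleton'.1 ha
      rw [map_mul, hp, minpoly.aeval, mul_zero])
  have hψ : ψ (AdjoinRoot.root p) = g := by
    change Polynomial.aeval (A := Module.End F V) g X = g
    exact aeval_X _
  obtain ⟨v0, hv0⟩ := exists_ne (0 : V)
  let φ : AdjoinRoot p →ₗ[F] V := (LinearMap.applyₗ v0) ∘ₗ ψ.toLinearMap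
  have hφ : ∀ k, φ k = ψ k v0 := fun k => rfl
  have hinj : Function.Injective φ := by
    rw [← LinearMap.ker_eq_bot, LinearMap.ker_eq_bot']
    intro k hk
    by_contra hk0
    apply hv0
    have h1 : ψ (k⁻¹ * k) v0 = v0 := by
      rw [inv_mul_cancel₀ hk0, map_one]
      rfl
    rw [map_mul] at h1
    rw [← h1]
    change ψ k⁻¹ (ψ k v0) = 0
    rw [← hφ, hk, map_zero]
  have hmul : ∀ k, φ (AdjoinRoot.root p * k) = g (φ k) := by
    intro k
    rw [hφ, map_mul, hψ]
    rfl
  have hsurj : Function.Surjective φ := by
    rcases hirr (LinearMap.range φ) (by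
      rintro x ⟨k, rfl⟩
      exact ⟨AdjoinRoot.root p * k, hmul k⟩) with h | h
    · exfalso
      apply hv0
      have h1 : φ 1 ∈ LinearMap.range φ := ⟨1, rfl⟩
      rw [h, Submodule.mem_bot, hφ, map_one] at h1
      exact h1
    · exact LinearMap.range_eq_top.1 h
  let e := (LinearEquiv.ofBijective φ ⟨hinj, hsurj⟩)
  refine ⟨AdjoinRoot p, inferInstance, inferInstance,
    (AdjoinRoot.powerBasis hirr'.ne_zero).finite, AdjoinRoot.root p, e.symm,
    AdjoinRoot.adjoinRoot_eq_top, ?_⟩
  intro v
  rw [LinearEquiv.symm_apply_eq]
  change g v = φ (AdjoinRoot.root p * e.symm v)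
  rw [hmul]
  congr 1
  exact (e.apply_symm_apply v).symm

end Pool.Agent.Eng.H26
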